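import Pool.Agent.Helper17.RZF.TrSt

/-!
# RZ-T, part 1: quasi-equivalences, DG functors and thick closures
-/

set_option autoImplicit false

namespace Pool.Agent.Helper81.RZ

open Pool.Agent.Helper17 Pool.Agent.Helper17.RZF.Tr

universe u v w v' w'

noncomputable section

variable {k : Type u} [Field k]

theorem d_eq_zero_iff (C : RZ.DGCat.{u, v, w} k) {X Y : C.Obj} {n m : ℤ} (h : n + 1 = m)
    (f : C.Hom X Y n) : C.d h f = 0 ↔ C.d (rfl : n + 1 = n + 1) f = 0 := by
  subst h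
  rfl

/-- a heavy DG functor as a light one -/
def ltF {A B : RZ.DGCat.{u, v, w} k} (F : Helper49.RZ.DGFun A B) : RZF.Functor (lt A) (lt B) where
  obj := F.obj
  map f := F.map f
  lin _ _ _ := F.map.isLinear
  map_one X := F.map_one X
  map_comp h f g := F.map_comp h f g
  map_d h f := F.map_d h f

theorem ltF_qe {A B : RZ.DGCat.{u, v, w} k} {F : Helper49.RZ.DGFun A B} (hF : F.IsQuasiEquiv) :
    (ltF F).IsQuasiEquiv where
  inj {X Y l n} h x y hx hy := (hF.qff X Y).inj h rfl x y hx hy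
  surj {X Y l n} h y hy := by
    obtain ⟨x, z, hx, hz⟩ := (hF.qff X Y).surj h rfl y hy
    exact ⟨x, z, hx, hz⟩
  ess Y := by
    obtain ⟨X, f, g, s, t, hf, hg, hs, ht⟩ := hF.surj Y
    exact ⟨X, f, g, (d_eq_zero_iff B _ f).mp hf, (d_eq_zero_iff B _ g).mp hg, ⟨s, hs⟩, ⟨t, ht⟩⟩

/-- RZ-T1 -/
theorem trQE : TrQE.{u, v, w} := by
  intro k _ A B h
  induction h with
  | refl A => exact Relation.EqvGen.refl _
  | left F hF _ ih => exact (Relation.EqvGen.rel _ _ ⟨ltF F, ltF_qe hF⟩).symm.trans _ _ _ ih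
  | right F hF _ ih => exact (Relation.EqvGen.rel _ _ ⟨ltF F, ltF_qe hF⟩).trans _ _ _ ih

/-! ### DG functors preserve shifts, cones, retracts -/

section

variable {C : RZ.DGCat.{u, v, w} k} {D : RZ.DGCat.{u, v', w'} k} (F : Helper49.RZ.DGFun C D)

theorem map_closed {X Y : C.Obj} {n m : ℤ} (h : n + 1 = m) {f : C.Hom X Y n} (hf : C.d h f = 0) :
    D.d h (F.map f) = 0 := by
  rw [← F.map_d, hf, map_zero]

theorem map_shift {X Y : C.Obj} {n : ℤ} (h : Helper49.RZ.IsShift C X Y n) :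
    Helper49.RZ.IsShift D (F.obj X) (F.obj Y) n := by
  obtain ⟨f, g, hf, hg, h1, h2⟩ := h
  refine ⟨F.map f, F.map g, map_closed F _ hf, map_closed F _ hg, ?_, ?_⟩
  · rw [← F.map_comp, h1, F.map_one]
  · rw [← F.map_comp, h2, F.map_one]

theorem map_cone {X Y Z : C.Obj} {f : C.Hom X Y 0} (h : Helper49.RZ.IsCone C f Z) :
    Helper49.RZ.IsCone D (F.map f) (F.obj Z) := by
  obtain ⟨i, p, j, q, h1, h2, h3, h4, h5, h6, h7, h8, h9⟩ := h
  refine ⟨F.map i, F.map p, F.map j, F.map q, ?_, ?_, ?_, ?_, ?_, map_closed F _ h6,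
    map_closed F _ h7, ?_, ?_⟩
  · rw [← F.map_comp, h1, F.map_one]
  · rw [← F.map_comp, h2, F.map_one]
  · rw [← F.map_comp, ← F.map_comp, ← map_add, h3, F.map_one]
  · rw [← F.map_comp, h4, map_zero]
  · rw [← F.map_comp, h5, map_zero]
  · rw [← F.map_d, ← F.map_comp, h8]
  · rw [← F.map_d, ← F.map_comp, h9, map_neg]

theorem map_retract {X Y : C.Obj} (h : C.Retract Y X) : D.Retract (F.obj Y) (F.obj X) := by
  obtain ⟨i, p, s, hi, hp, h1⟩ := h
  refine ⟨F.map i, F.map p, F.map s, map_closed F _ hi, map_closed F _ hp, ?_⟩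
  rw [← F.map_comp, h1, map_add, F.map_one, F.map_d]

theorem map_thick {S : C.Obj → Prop} {S' : D.Obj → Prop} (hS : ∀ X, S X → S' (F.obj X)) {X : C.Obj}
    (h : Helper49.RZ.DGThick C S X) : Helper49.RZ.DGThick D S' (F.obj X) := by
  induction h with
  | base X hX => exact .base _ (hS X hX)
  | shift X Y n _ hXY ih => exact .shift _ _ n ih (map_shift F hXY)
  | cone X Y Z f _ _ hf hZ ihX ihY => exact .cone _ _ _ (F.map f) ihX ihY (map_closed F _ hf) (map_cone F hZ)
  | retract X Y _ hY ih => exact .retract _ _ ih (map_retract F hY)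

end

/-! ### the light and the heavy notions -/

section

variable (C : RZF.DGCat.{u, v, w} k)

theorem closed_iff {X Y : C.Obj} {n m : ℤ} (h : n + 1 = m) (f : C.Hom X Y n) :
    RZF.Closed C f ↔ (hv C).d h f = 0 := (d_eq_zero_iff (hv C) h f).symm

theorem shift_iff {X Y : C.Obj} {n : ℤ} : RZF.IsShift C X Y n ↔ Helper49.RZ.IsShift (hv C) X Y n :=
  Iff.rfl

theorem retract_iff {X Y : C.Obj} : RZF.IsRetract C Y X ↔ (hv C).Retract Y X := by
  constructor
  · rintro ⟨i, p, hi, hp, s, hs⟩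
    exact ⟨i, p, s, (closed_iff C _ i).mp hi, (closed_iff C _ p).mp hp, hs⟩
  · rintro ⟨i, p, s, hi, hp, hs⟩
    exact ⟨i, p, (closed_iff C _ i).mpr hi, (closed_iff C _ p).mpr hp, s, hs⟩

theorem cone_iff {X Y Z : C.Obj} {f : C.Hom X Y 0} :
    RZF.IsCone C f Z ↔ Helper49.RZ.IsCone (hv C) f Z := by
  constructor
  · rintro ⟨i, p, j, q, h1, h2, h3, h4, h5, h6, h7, h8, h9⟩
    exact ⟨i, p, j, q, h1, h2, h3, h4, h5, (closed_iff C _ i).mp h6, h7, h8,
      eq_neg_of_add_eq_zero_left h9⟩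
  · rintro ⟨i, p, j, q, h1, h2, h3, h4, h5, h6, h7, h8, h9⟩
    exact ⟨i, p, j, q, h1, h2, h3, h4, h5, (closed_iff C _ i).mpr h6, h7, h8,
      eq_neg_iff_add_eq_zero.mp h9⟩

theorem thick_to {S : C.Obj → Prop} {X : C.Obj} (h : RZF.Thick C S X) :
    Helper49.RZ.DGThick (hv C) S X := by
  induction h with
  | base X hX => exact .base _ hX
  | shift X Y n _ hXY ih => exact .shift _ _ n ih ((shift_iff C).mp hXY)
  | cone X Y Z f _ _ hf hZ ihX ihY =>
    exact .cone _ _ _ f ihX ihY ((closed_iff C _ f).mp hf) ((cone_iff C).mp hZ)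
  | retract X Y _ hY ih => exact .retract _ _ ih ((retract_iff C).mp hY)

theorem thick_of {S : (hv C).Obj → Prop} {X : (hv C).Obj} (h : Helper49.RZ.DGThick (hv C) S X) :
    RZF.Thick C S X := by
  induction h with
  | base X hX => exact .base _ hX
  | shift X Y n _ hXY ih => exact .shift _ _ n ih ((shift_iff C).mpr hXY)
  | cone X Y Z f _ _ hf hZ ihX ihY =>
    exact .cone _ _ _ f ihX ihY ((closed_iff C _ f).mpr hf) ((cone_iff C).mpr hZ)
  | retract X Y _ hY ih => exact .retract _ _ ih ((retract_iff C).mpr hY)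

end

end

end Pool.Agent.Helper81.RZ
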