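import Pool.Agent.Helper81.RZ.TrA
import Pool.Agent.Helper49.RZ.Ext

/-!
# RZ-T, part 2: the two versions of the DG category of modules
-/

set_option autoImplicit false

namespace Pool.Agent.Helper81.RZ

open Pool.Agent.Helper17 Pool.Agent.Helper17.RZF.Tr

universe u v w

noncomputable section

variable {k : Type u} [Field k] {V : RZF.DGCat.{u, v, w} k}

/-- light modules as heavy modules -/
def toH (M : RZF.DGMod V) : Helper49.RZ.DGMod (hv V) where
  M X :=
    { X := fun n => M.M X n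
      d := fun h => (M.ax.lin_d h).mk' _
      d_d := fun h₁ h₂ x => M.ax.d_d h₁ h₂ x }
  act h := LinearMap.mk₂ k (fun x f => M.act h x f)
    (fun x y f => (M.ax.lin_left h f).map_add x y) (fun c x f => (M.ax.lin_left h f).map_smul c x)
    (fun x f g => (M.ax.lin_right h x).map_add f g) (fun c x f => (M.ax.lin_right h x).map_smul c f)
  act_one h x := M.ax.act_one h x
  act_act h₁ h₂ h₃ h₄ x f g := M.ax.act_act h₁ h₂ h₃ h₄ x f g
  d_act h hl hn hm h₁ h₂ x f := M.ax.d_act h hl hn hm h₁ h₂ x f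

/-- heavy modules as light modules -/
def toL (N : Helper49.RZ.DGMod (hv V)) : RZF.DGMod V where
  M X n := ModuleCat.of k ((N.M X).X n)
  d {X} {_} {_} h x := (N.M X).d h x
  act h x f := N.act h x f
  ax :=
    { lin_d := fun {X} {_} {_} h => ((N.M X).d h).isLinear
      lin_left := fun h f => ((N.act h).flip f).isLinear
      lin_right := fun h x => (N.act h x).isLinear
      d_d := fun {X} {_} {_} {_} h₁ h₂ x => (N.M X).d_d h₁ h₂ x
      act_one := fun h x => N.act_one h x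
      act_act := fun h₁ h₂ h₃ h₄ x f g => N.act_act h₁ h₂ h₃ h₄ x f g
      d_act := fun h hl hn hm h₁ h₂ x f => N.d_act h hl hn hm h₁ h₂ x f }

theorem toL_toH (M : RZF.DGMod V) : toL (toH M) = M := rfl

theorem toH_toL (N : Helper49.RZ.DGMod (hv V)) : toH (toL N) = N := rfl

/-- light morphisms as heavy morphisms -/
def mH {A B : RZF.DGMod V} {n : ℤ} : (RZF.ModHom A B n : Type _) →ₗ[k]
    Helper49.RZ.ModHom (toH A) (toH B) n where
  toFun φ := Helper49.RZ.mkHom (A := toH A) (B := toH B)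
    (fun X i j h => ((RZF.subM.prop φ).lin (X := X) (i := i) (j := j) h).mk' _)
    (fun h₁ h₂ h₃ h₄ x f => (RZF.subM.prop φ).nat h₁ h₂ h₃ h₄ x f)
  map_add' φ ψ := Helper49.RZ.ap_ext fun X i j h x => rfl
  map_smul' c φ := Helper49.RZ.ap_ext fun X i j h x => rfl

/-- heavy morphisms as light morphisms -/
def mL {A B : Helper49.RZ.DGMod (hv V)} {n : ℤ} : Helper49.RZ.ModHom A B n →ₗ[k]
    (RZF.ModHom (toL A) (toL B) n : Type _) where
  toFun φ := RZF.subM.mk (M := RZF.Raw (toL A) (toL B) n) (fun X p x => φ.1 X p x)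
    ⟨fun h => (Helper49.RZ.ap φ h).isLinear,
      fun h₁ h₂ h₃ h₄ x f => Helper49.RZ.ap_nat φ h₁ h₂ h₃ h₄ x f⟩
  map_add' φ ψ := rfl
  map_smul' c φ := rfl

theorem mL_mH {A B : RZF.DGMod V} {n : ℤ} (φ : RZF.ModHom A B n) : mL (mH φ) = φ := rfl

theorem mH_mL {A B : Helper49.RZ.DGMod (hv V)} {n : ℤ} (φ : Helper49.RZ.ModHom A B n) :
    mH (mL φ) = φ := rfl

theorem mH_one (A : RZF.DGMod V) : mH (RZF.oneHom A) = Helper49.RZ.oneHom (toH A) := by
  refine Helper49.RZ.ap_ext fun X i j h x => ?_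
  obtain rfl : i = j := RZF.deg_one h
  rfl

theorem mH_comp {A B C : RZF.DGMod V} {n m l : ℤ} (h : n + m = l) (φ : RZF.ModHom B C n)
    (ψ : RZF.ModHom A B m) :
    mH (RZF.compHom h φ ψ) = Helper49.RZ.compHom h (mH φ) (mH ψ) := rfl

theorem mH_d {A B : RZF.DGMod V} {n m : ℤ} (h : n + 1 = m) (φ : RZF.ModHom A B n) :
    mH (RZF.dHom h φ) = Helper49.RZ.dHom h (mH φ) := by
  refine Helper49.RZ.ap_ext fun X i j hij x => ?_
  show (B.d (RZF.deg_left h hij) (RZF.ap φ.1 rfl x) +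
      (n + 1).negOnePow • (RZF.ap φ.1 (RZF.deg_right h hij) (A.d rfl x)) : B.M X j) =
    (B.d (RZF.deg_left h hij) (RZF.ap φ.1 rfl x) -
      n.negOnePow • (RZF.ap φ.1 (RZF.deg_right h hij) (A.d rfl x)) : B.M X j)
  rw [Int.negOnePow_succ, Units.neg_smul, sub_eq_add_neg]

/-- the functor from light to heavy modules -/
def LtoH (V : RZF.DGCat.{u, v, w} k) :
    Helper49.RZ.DGFun (hv (RZF.modCat V)) (Helper49.RZ.ModCat (hv V)) where
  obj := toH
  map := mH
  map_one := mH_one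
  map_comp h f g := mH_comp h f g
  map_d h f := mH_d h f

/-- the functor from heavy to light modules -/
def HtoL (V : RZF.DGCat.{u, v, w} k) :
    Helper49.RZ.DGFun (Helper49.RZ.ModCat (hv V)) (hv (RZF.modCat V)) where
  obj := toL
  map := mL
  map_one X := congrArg mL (mH_one (toL X)).symm
  map_comp h f g := congrArg mL (mH_comp h (mL f) (mL g)).symm
  map_d h f := congrArg mL (mH_d h (mL f)).symm

theorem toH_rep (X : V.Obj) : toH (RZF.rep X) = Helper49.RZ.rep (V := hv V) X := rfl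

theorem toL_rep (X : V.Obj) : toL (Helper49.RZ.rep (V := hv V) X) = RZF.rep X := rfl

/-- the functor on perfect modules -/
def PF (V : RZF.DGCat.{u, v, w} k) : Helper49.RZ.DGFun (hv (RZF.Perf V)) (Helper49.RZ.Perf (hv V)) where
  obj X := ⟨toH X.1, map_thick (LtoH V) (fun P hP => by
    obtain ⟨Y, rfl⟩ := hP
    exact ⟨Y, toH_rep Y⟩) (thick_to _ X.2)⟩
  map := mH
  map_one X := mH_one X.1
  map_comp h f g := mH_comp h f g
  map_d h f := mH_d h f

/-- RZ-T2 -/
theorem trPerf : TrPerf.{u, v, w} := by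
  intro k _ V
  refine ⟨PF V, ⟨fun X Y => ⟨?_, ?_⟩, fun Y => ?_⟩⟩
  · intro l n m h₁ h₂ x y hx hy
    refine ⟨mL y, ?_⟩
    have h3 : mL (mH x) = mL (Helper49.RZ.dHom h₁ y) := congrArg mL hy
    refine (mL_mH x).symm.trans (h3.trans ?_)
    exact (HtoL V).map_d h₁ y
  · intro l n m h₁ h₂ y hy
    refine ⟨mL y, 0, ?_, ?_⟩
    · exact map_closed (HtoL V) h₂ hy
    · rw [map_zero, add_zero]
      rfl
  · refine ⟨⟨toL Y.1, thick_of _ (map_thick (HtoL V) (fun P hP => ?_) Y.2)⟩, ?_⟩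
    · obtain ⟨X, rfl⟩ := hP
      exact ⟨X, toL_rep X⟩
    · have hd := Helper49.RZ.d_one (Helper49.RZ.Perf (hv V)) Y (zero_add 1)
      refine ⟨(Helper49.RZ.Perf (hv V)).one Y, (Helper49.RZ.Perf (hv V)).one Y, 0, 0, hd, hd, ?_, ?_⟩
      · exact ((Helper49.RZ.Perf (hv V)).one_comp (zero_add 0) _).trans (by rw [map_zero, add_zero]; rfl)
      · exact ((Helper49.RZ.Perf (hv V)).one_comp (zero_add 0) _).trans (by rw [map_zero, add_zero])

end

end Pool.Agent.Helper81.RZ
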